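import Pool.Agent.J6H17.RF.Stm
import Pool.Agent.J6H49.ES.Incl

/-!
# Project RF: module RF-ALL
-/

set_option autoImplicit false

namespace Pool.Agent.J6H21.RF

open Pool.Agent.NPC Pool.Agent.H628R3.RO Pool.Agent.J6H17.RF Pool.Agent.J6H49.ES
open Pool.Agent.H622R2 (poly_pairBits poly_of_polyTime)

/-- the first member and the rest of a coded list -/
def split (s : List Bool) : T × T :=
  match unbits T s with
  | none => (T.nil, T.nil)
  | some t => match t with
    | T.nil => (T.nil, T.nil)
    | T.node a r => (a, r)

theorem poly_split : Poly split := by
  refine (Poly.optCases (o := fun s => unbits T s) (g := fun _ => ((T.nil, T.nil) : T × T))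
    (h := fun _ t => match t with
      | T.nil => (T.nil, T.nil)
      | T.node a r => (a, r)) poly_unbits (NPC.Poly.const _) ?_).congr fun s => by
        unfold split
        cases unbits T s with
        | none => rfl
        | some t => cases t <;> rfl
  exact Poly.treeCases (t := fun p : List Bool × T => p.2) (g := fun _ => ((T.nil, T.nil) : T × T))
    (h := fun _ a r => (a, r)) (Poly.snd Poly.id) (NPC.Poly.const _) (Poly.snd Poly.id)

theorem split_node (a r : T) : split (T.node a r).enc = (a, r) := by
  have h : unbits T (T.node a r).enc = some (T.node a r) := unbits_bits (T.node a r)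
  unfold split
  rw [h]

/-- the first member -/
def hd (s : List Bool) : List Bool := (split s).1.enc

/-- the rest -/
def rest (s : List Bool) : List Bool := (split s).2.enc

theorem poly_hd : Poly hd := poly_of_polyTime (polyTime_bits (Poly.fst poly_split))

theorem poly_rest : Poly rest := poly_of_polyTime (polyTime_bits (Poly.snd poly_split))

/-- one step -/
def stp (D : List Bool → List Bool) (s : List Bool) : List Bool :=
  if s.head? = some true then (if D (hd s) = [true] then rest s else []) else s

theorem isFP_stp {A : Oracle} {D : List Bool → List Bool} (hD : IsFP A D) : IsFP A (stp D) := by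
  have h := IsFP.seq (IsFP.of_poly (A := A) (F := fun s => s) Poly.id) hD (φ := fun p => hd p.1)
    (ψ := fun p => if p.1.head? = some true then (if p.2.2 = [true] then rest p.1 else [])
      else p.1)
    (poly_hd.comp (Poly.fst Poly.id))
    (Poly.ite (Poly.decide_eq (Poly.head? (Poly.fst Poly.id)) (NPC.Poly.const _))
      (Poly.ite (Poly.decide_eq (Poly.snd (Poly.snd Poly.id)) (NPC.Poly.const _))
        (poly_rest.comp (Poly.fst Poly.id)) (NPC.Poly.const _)) (Poly.fst Poly.id))
  exact h

theorem rest_length (s : List Bool) (hs : s.head? = some true) : (rest s).length ≤ s.length := by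
  have hpos : 1 ≤ s.length := by
    cases s with
    | nil => simp at hs
    | cons a s => simp
  unfold rest split
  cases h : unbits T s with
  | none => simpa [T.enc] using hpos
  | some t =>
    have h1 : t.enc = s := bits_of_unbits h
    cases t with
    | nil => simpa [T.enc] using hpos
    | node a r =>
      rw [← h1]
      simp only [T.enc, List.length_cons, List.length_append]
      omega

theorem stp_length (D : List Bool → List Bool) (s : List Bool) : (stp D s).length ≤ s.length := by
  unfold stp
  split_ifs with h1 h2
  · exact rest_length s h1
  · simp
  · exact le_rfl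

theorem iter_length (D : List Bool → List Bool) (s : List Bool) (k : ℕ) :
    ((stp D)^[k] s).length ≤ s.length := by
  induction k with
  | zero => exact le_rfl
  | succ k ih =>
    rw [Function.iterate_succ_apply']
    exact (stp_length D _).trans ih

theorem iter_nil (D : List Bool → List Bool) (k : ℕ) : (stp D)^[k] [] = [] := by
  induction k with
  | zero => rfl
  | succ k ih =>
    rw [Function.iterate_succ_apply', ih]
    rfl

theorem iter_false (D : List Bool → List Bool) (k : ℕ) : (stp D)^[k] [false] = [false] := by
  induction k with
  | zero => rfl
  | succ k ih =>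
    rw [Function.iterate_succ_apply', ih]
    rfl

theorem iter_list (D : List Bool → List Bool) : ∀ (l : List T) (k : ℕ), l.length ≤ k →
    ((stp D)^[k] (T.ofList l).enc = [false] ↔ ∀ t ∈ l, D t.enc = [true])
  | [], k, _ => by
    have : (T.ofList []).enc = [false] := rfl
    rw [this, iter_false]
    simp
  | t :: l, k, hk => by
    obtain ⟨k, rfl⟩ : ∃ k', k = k' + 1 := ⟨k - 1, by simp only [List.length_cons] at hk; omega⟩
    have e : (T.ofList (t :: l)).enc = (T.node t (T.ofList l)).enc := rfl
    rw [e, Function.iterate_succ_apply]
    have h1 : stp D (T.node t (T.ofList l)).enc =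
        if D t.enc = [true] then (T.ofList l).enc else [] := by
      unfold stp hd rest
      rw [split_node, if_pos (by simp [T.enc])]
    rw [h1]
    by_cases h2 : D t.enc = [true]
    · rw [if_pos h2, iter_list D l k (by simp only [List.length_cons] at hk; omega)]
      simp [h2]
    · rw [if_neg h2, iter_nil]
      simp [h2]

theorem length_le_enc : ∀ l : List T, l.length ≤ (T.ofList l).enc.length
  | [] => Nat.zero_le _
  | t :: l => by
    have h := length_le_enc l
    have e : (T.ofList (t :: l)).enc = true :: (t.enc ++ (T.ofList l).enc) := rfl
    rw [e]
    simp only [List.length_cons, List.length_append]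
    omega

theorem bits_list (l : List T) : bits l = (T.ofList l).enc := by
  change (T.ofList (l.map (fun t => t))).enc = _
  rw [List.map_id']

theorem main : S_ALL := by
  intro A D hD
  have hloop := Pool.Agent.H620R2.Gauge.IsFP.loop (isFP_tra (isFP_stp hD))
    (g := fun z => z) Poly.id Polynomial.X Polynomial.X (by
      intro z k _
      rw [Polynomial.eval_X]
      exact iter_length D z k)
  simp only [Polynomial.eval_X] at hloop
  have hfin : IsFP A (fun v : List Bool => if v = [false] then [true] else []) :=
    IsFP.of_poly (Poly.ite (Poly.decide_eq Poly.id (NPC.Poly.const _)) (NPC.Poly.const _)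
      (NPC.Poly.const _))
  refine ⟨_, IsFP.comp hfin (isFP_tra' hloop), fun l => ?_⟩
  have h := iter_list D l (bits l).length (by rw [bits_list]; exact length_le_enc l)
  rw [← h, ← bits_list]
  split_ifs with h1
  · simp [h1]
  · simp [h1]

end Pool.Agent.J6H21.RF
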